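import Mathlib

/-!
# Covering arrays of strength two with stars

A *starred array* `(σ, π)` with `m` rows and `n` columns has entries `some true`, `some false` or
`none` (a star), and a star in row `r` and column `i` points to the column `π r i`. It covers all
sign patterns of all pairs of columns, where a star covers both signs together with the entry of
the column it points to. We show `2 n ≤ C(m, m/2) + 4 m`.
-/

set_option autoImplicit false

namespace Pool.Agent.Q130.SJ

open Finset

variable {m n : ℕ}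

/-- every pattern `(a, b)` on every pair `i ≠ j` of columns is covered -/
def Cov (σ : Fin m → Fin n → Option Bool) (π : Fin m → Fin n → Fin n) : Prop :=
  ∀ i j, i ≠ j → ∀ a b : Bool, ∃ r, (σ r i = some a ∧ σ r j = some b) ∨
    (σ r i = none ∧ π r i = j ∧ σ r j = some b) ∨
    (σ r j = none ∧ π r j = i ∧ σ r i = some a)

/-- all the stars are essential -/
def Ess (σ : Fin m → Fin n → Option Bool) (π : Fin m → Fin n → Fin n) : Prop :=
  ∀ r i, σ r i = none → ∃ b, σ r (π r i) = some b ∧
    ∀ ρ, σ ρ (π r i) = some b → σ ρ i = none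

/-- the number of stars -/
def stars (σ : Fin m → Fin n → Option Bool) : ℕ :=
  (univ.filter fun p : Fin m × Fin n => σ p.1 p.2 = none).card

/-- replace the entry at `(r, i)` by the sign `c` -/
def upd (σ : Fin m → Fin n → Option Bool) (r : Fin m) (i : Fin n) (c : Bool) :
    Fin m → Fin n → Option Bool :=
  fun ρ x => if ρ = r ∧ x = i then some c else σ ρ x

lemma upd_ne (σ : Fin m → Fin n → Option Bool) (r : Fin m) (i : Fin n) (c : Bool) {ρ : Fin m}
    {x : Fin n} (h : ¬ (ρ = r ∧ x = i)) : upd σ r i c ρ x = σ ρ x := by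
  simp only [upd, if_neg h]

lemma upd_eq (σ : Fin m → Fin n → Option Bool) (r : Fin m) (i : Fin n) (c : Bool) :
    upd σ r i c r i = some c := by
  simp [upd]

lemma stars_upd_lt (σ : Fin m → Fin n → Option Bool) (r : Fin m) (i : Fin n) (c : Bool)
    (h : σ r i = none) : stars (upd σ r i c) < stars σ := by
  apply Finset.card_lt_card
  rw [Finset.ssubset_iff_of_subset]
  · refine ⟨(r, i), ?_, ?_⟩
    · simpa using h
    · simp [upd_eq]
  · rintro ⟨ρ, x⟩ hp
    rw [mem_filter] at hp ⊢
    refine ⟨mem_univ _, ?_⟩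
    by_cases hx : ρ = r ∧ x = i
    · obtain ⟨rfl, rfl⟩ := hx; exact h
    · have := hp.2
      rwa [upd_ne σ r i c hx] at this

/-- entries which are signs are not changed by filling a star -/
lemma upd_some (σ : Fin m → Fin n → Option Bool) (r : Fin m) (i : Fin n) (c : Bool)
    (h : σ r i = none) {ρ : Fin m} {x : Fin n} {a : Bool} (hx : σ ρ x = some a) :
    upd σ r i c ρ x = some a := by
  rw [upd_ne, hx]
  rintro ⟨rfl, rfl⟩
  rw [h] at hx
  cases hx

/-- filling a star which is not essential keeps the covering property -/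
lemma cov_upd {σ : Fin m → Fin n → Option Bool} {π : Fin m → Fin n → Fin n} (hc : Cov σ π)
    {r : Fin m} {i : Fin n} (h : σ r i = none) (c : Bool)
    (hf : ∀ b, σ r (π r i) = some b → π r i ≠ i → ∃ ρ, σ ρ (π r i) = some b ∧
      σ ρ i = some (!c)) : Cov (upd σ r i c) π := by
  -- the patterns covered by the star
  have key : ∀ b, σ r (π r i) = some b → π r i ≠ i → ∀ a, ∃ ρ,
      upd σ r i c ρ i = some a ∧ upd σ r i c ρ (π r i) = some b := by
    intro b hb hne a
    by_cases hac : a = c
    · subst hac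
      exact ⟨r, upd_eq _ _ _ _, upd_some σ r i _ h hb⟩
    · obtain ⟨ρ, h1, h2⟩ := hf b hb hne
      have : (!c) = a := by cases a <;> cases c <;> simp_all
      rw [this] at h2
      exact ⟨ρ, upd_some σ r i _ h h2, upd_some σ r i _ h h1⟩
  intro x y hxy a b
  obtain ⟨ρ, h1 | h1 | h1⟩ := hc x y hxy a b
  · exact ⟨ρ, Or.inl ⟨upd_some σ r i c h h1.1, upd_some σ r i c h h1.2⟩⟩
  · by_cases hx : ρ = r ∧ x = i
    · obtain ⟨rfl, rfl⟩ := hx
      obtain ⟨ρ', h3, h4⟩ := key b (by rw [h1.2.1]; exact h1.2.2) (by rw [h1.2.1]; exact hxy.symm) a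
      rw [h1.2.1] at h4
      exact ⟨ρ', Or.inl ⟨h3, h4⟩⟩
    · exact ⟨ρ, Or.inr (Or.inl ⟨by rw [upd_ne _ _ _ _ hx]; exact h1.1, h1.2.1,
        upd_some σ r i c h h1.2.2⟩)⟩
  · by_cases hx : ρ = r ∧ y = i
    · obtain ⟨rfl, rfl⟩ := hx
      obtain ⟨ρ', h3, h4⟩ := key a (by rw [h1.2.1]; exact h1.2.2) (by rw [h1.2.1]; exact hxy) b
      rw [h1.2.1] at h4
      exact ⟨ρ', Or.inl ⟨h4, h3⟩⟩
    · exact ⟨ρ, Or.inr (Or.inr ⟨by rw [upd_ne _ _ _ _ hx]; exact h1.1, h1.2.1,
        upd_some σ r i c h h1.2.2⟩)⟩

/-- one can get rid of the stars which are not essential -/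
lemma exists_ess (π : Fin m → Fin n → Fin n) : ∀ (N : ℕ) (σ : Fin m → Fin n → Option Bool),
    stars σ = N → Cov σ π → ∃ σ' : Fin m → Fin n → Option Bool, Cov σ' π ∧ Ess σ' π := by
  intro N
  induction N using Nat.strong_induction_on with
  | _ N ih =>
    intro σ hN hc
    by_cases he : Ess σ π
    · exact ⟨σ, hc, he⟩
    · unfold Ess at he
      push Not at he
      obtain ⟨r, i, h, hb⟩ := he
      rcases hj : σ r (π r i) with _ | b
      · refine ih _ ?_ (upd σ r i true) rfl (cov_upd hc h true ?_)
        · rw [← hN]; exact stars_upd_lt σ r i true h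
        · intro b hb'; rw [hj] at hb'; cases hb'
      · obtain ⟨ρ, h1, h2⟩ := hb b hj
        obtain ⟨a, ha⟩ := Option.ne_none_iff_exists'.1 h2
        refine ih _ ?_ (upd σ r i (!a)) rfl (cov_upd hc h (!a) ?_)
        · rw [← hN]; exact stars_upd_lt σ r i (!a) h
        · intro b' hb' _
          rw [hj] at hb'
          obtain rfl := Option.some.inj hb'
          exact ⟨ρ, h1, by simpa using ha⟩

/-- a family of columns in which all the patterns occur has at most `C(m, m/2)/2` members -/
lemma indep_bound (I : Finset (Fin n)) (τ : Fin m → Fin n → Bool) (h2 : 2 ≤ I.card)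
    (h : ∀ i ∈ I, ∀ j ∈ I, i ≠ j → ∀ a b : Bool, ∃ r, τ r i = a ∧ τ r j = b) :
    2 * I.card ≤ m.choose (m / 2) := by
  classical
  let S : Fin n × Bool → Finset (Fin m) := fun p => univ.filter fun r => τ r p.1 = p.2
  have hS : ∀ p ∈ I ×ˢ (univ : Finset Bool), ∀ q ∈ I ×ˢ (univ : Finset Bool), p ≠ q →
      ¬ S p ⊆ S q := by
    rintro ⟨i, a⟩ hp ⟨j, b⟩ hq hne hsub
    rw [mem_product] at hp hq
    by_cases hij : i = j
    · subst hij
      obtain ⟨k, hk, hki⟩ := Finset.exists_mem_ne (by omega : 1 < I.card) i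
      obtain ⟨r, hr, -⟩ := h i hp.1 k hk hki.symm a a
      have h1 : r ∈ S (i, a) := by simp [S, hr]
      have h2 := hsub h1
      simp only [S, mem_filter, mem_univ, true_and] at h2
      exact hne (by rw [← h2, hr])
    · obtain ⟨r, hr, hr'⟩ := h i hp.1 j hq.1 hij a (!b)
      have h1 : r ∈ S (i, a) := by simp [S, hr]
      have h2 := hsub h1
      simp only [S, mem_filter, mem_univ, true_and] at h2
      rw [hr'] at h2
      cases b <;> simp at h2
  have hinj : Set.InjOn S (I ×ˢ (univ : Finset Bool) : Finset _) := by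
    intro p hp q hq hpq
    by_contra hne
    exact hS p hp q hq hne (le_of_eq hpq)
  have hanti : IsAntichain (· ⊆ ·) (((I ×ˢ (univ : Finset Bool)).image S : Finset (Finset (Fin m))) :
      Set (Finset (Fin m))) := by
    intro x hx y hy hxy hsub
    rw [mem_coe, mem_image] at hx hy
    obtain ⟨p, hp, rfl⟩ := hx
    obtain ⟨q, hq, rfl⟩ := hy
    exact hS p hp q hq (fun h => hxy (by rw [h])) hsub
  have h3 := hanti.sperner
  rw [card_image_of_injOn hinj, card_product, card_univ, Fintype.card_bool, Fintype.card_fin] at h3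
  omega

/-- the columns `j` and `k` are independent without stars -/
def Nrm (σ : Fin m → Fin n → Option Bool) (j k : Fin n) : Prop :=
  ∀ a b : Bool, ∃ r, σ r j = some a ∧ σ r k = some b

/-- fill the stars of the column `i` by the signs of the column `k` -/
def fill (σ : Fin m → Fin n → Option Bool) (k : Fin n) (r : Fin m) (i : Fin n) : Bool :=
  match σ r i with
  | some a => a
  | none => (σ r k).getD true

lemma fill_some {σ : Fin m → Fin n → Option Bool} {k : Fin n} {r : Fin m} {i : Fin n} {a : Bool}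
    (h : σ r i = some a) : fill σ k r i = a := by
  simp [fill, h]

lemma fill_none {σ : Fin m → Fin n → Option Bool} {k : Fin n} {r : Fin m} {i : Fin n} {a : Bool}
    (h : σ r i = none) (hk : σ r k = some a) : fill σ k r i = a := by
  simp [fill, h, hk]

lemma fill_indep {σ : Fin m → Fin n → Option Bool} {π : Fin m → Fin n → Fin n} (hc : Cov σ π)
    (he : Ess σ π) {i j k : Fin n} (hij : i ≠ j) (hi : i = k ∨ Nrm σ i k) (hj : j = k ∨ Nrm σ j k)
    (a b : Bool) : ∃ r, fill σ k r i = a ∧ fill σ k r j = b := by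
  rcases hi with rfl | hi
  · rcases hj with rfl | hj
    · exact absurd rfl hij
    · obtain ⟨r, h1, h2⟩ := hj b a
      exact ⟨r, fill_some h2, fill_some h1⟩
  · rcases hj with rfl | hj
    · obtain ⟨r, h1, h2⟩ := hi a b
      exact ⟨r, fill_some h1, fill_some h2⟩
    · obtain ⟨r, h1 | h1 | h1⟩ := hc i j hij a b
      · exact ⟨r, fill_some h1.1, fill_some h1.2⟩
      · obtain ⟨b', hb', hρ⟩ := he r i h1.1
        rw [h1.2.1] at hb' hρ
        rw [h1.2.2] at hb'
        obtain rfl := Option.some.inj hb'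
        obtain ⟨ρ, h3, h4⟩ := hj b a
        exact ⟨ρ, fill_none (hρ ρ h3) h4, fill_some h3⟩
      · obtain ⟨b', hb', hρ⟩ := he r j h1.1
        rw [h1.2.1] at hb' hρ
        rw [h1.2.2] at hb'
        obtain rfl := Option.some.inj hb'
        obtain ⟨ρ, h3, h4⟩ := hi a b
        exact ⟨ρ, fill_some h3, fill_none (hρ ρ h3) h4⟩

/-- **The bound for starred arrays.** -/
theorem array_bound {σ : Fin m → Fin n → Option Bool} {π : Fin m → Fin n → Fin n} (hc : Cov σ π)
    (hm : 2 ≤ m) : 2 * n ≤ m.choose (m / 2) + 4 * m := by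
  classical
  obtain ⟨σ, hc, he⟩ := exists_ess π _ σ rfl hc
  rcases Nat.eq_zero_or_pos n with rfl | hn
  · omega
  -- the pairs which are not independent
  let D : Finset (Fin n × Fin n) := univ.filter fun p => p.1 ≠ p.2 ∧ ¬ Nrm σ p.1 p.2
  have hD : D.card ≤ 2 * (m * n) := by
    have hsub : D ⊆ ((univ : Finset (Fin m × Fin n)).image fun q => (q.2, π q.1 q.2)) ∪
        ((univ : Finset (Fin m × Fin n)).image fun q => (π q.1 q.2, q.2)) := by
      rintro ⟨j, k⟩ hp
      simp only [D, mem_filter, mem_univ, true_and] at hp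
      obtain ⟨hne, hn'⟩ := hp
      unfold Nrm at hn'
      push Not at hn'
      obtain ⟨a, b, hab⟩ := hn'
      rw [mem_union, mem_image, mem_image]
      obtain ⟨r, h1 | h1 | h1⟩ := hc j k hne a b
      · exact absurd h1.2 (hab r h1.1)
      · exact Or.inl ⟨(r, j), mem_univ _, by simp [h1.2.1]⟩
      · exact Or.inr ⟨(r, k), mem_univ _, by simp [h1.2.1]⟩
    refine (card_le_card hsub).trans ((card_union_le _ _).trans ?_)
    have h1 : ∀ f : Fin m × Fin n → Fin n × Fin n, (univ.image f).card ≤ m * n := fun f => by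
      refine card_image_le.trans ?_
      rw [card_univ, Fintype.card_prod, Fintype.card_fin, Fintype.card_fin]
    have h2 := h1 fun q => (q.2, π q.1 q.2)
    have h3 := h1 fun q => (π q.1 q.2, q.2)
    omega
  -- the columns independent of `k`
  have hk : ∀ k : Fin n, 2 * n ≤ m.choose (m / 2) +
      2 * (univ.filter fun j => j ≠ k ∧ ¬ Nrm σ j k).card := by
    intro k
    let I : Finset (Fin n) := univ.filter fun j => j = k ∨ Nrm σ j k
    have hI : n ≤ I.card + (univ.filter fun j => j ≠ k ∧ ¬ Nrm σ j k).card := by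
      have : (univ : Finset (Fin n)) ⊆ I ∪ (univ.filter fun j => j ≠ k ∧ ¬ Nrm σ j k) := by
        intro j _
        by_cases h1 : j = k
        · simp [I, h1]
        · by_cases h2 : Nrm σ j k
          · simp [I, h2]
          · simp [h1, h2]
      have h3 := (card_le_card this).trans (card_union_le _ _)
      rwa [card_univ, Fintype.card_fin] at h3
    have hB : 2 * I.card ≤ m.choose (m / 2) := by
      by_cases h2 : 2 ≤ I.card
      · refine indep_bound I (fill σ k) h2 ?_
        intro i hi j hj hij a b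
        simp only [I, mem_filter, mem_univ, true_and] at hi hj
        exact fill_indep hc he hij hi hj a b
      · have h3 : 2 ≤ m.choose (m / 2) := by
          calc 2 ≤ m := hm
            _ = m.choose 1 := (Nat.choose_one_right m).symm
            _ ≤ m.choose (m / 2) := Nat.choose_le_middle 1 m
        omega
    omega
  have hsum : ∑ k : Fin n, (univ.filter fun j => j ≠ k ∧ ¬ Nrm σ j k).card = D.card := by
    rw [card_eq_sum_card_fiberwise (f := Prod.snd) (t := (univ : Finset (Fin n)))
      (fun _ _ => mem_coe.2 (mem_univ _))]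
    refine sum_congr rfl fun k _ => ?_
    refine card_bij (fun j _ => (j, k)) ?_ ?_ ?_
    · intro j hj
      simpa [D] using hj
    · intro j _ j' _ h
      exact (Prod.mk.inj h).1
    · rintro ⟨j, k'⟩ hp
      simp only [D, mem_filter, mem_univ, true_and] at hp
      obtain ⟨⟨h1, h2⟩, rfl⟩ := hp
      exact ⟨j, by simp [h1, h2], rfl⟩
  have htot : n * (2 * n) ≤ n * m.choose (m / 2) + 2 * D.card := by
    have := sum_le_sum fun k (_ : k ∈ (univ : Finset (Fin n))) => hk k
    rw [sum_const, card_univ, Fintype.card_fin, smul_eq_mul, sum_add_distrib, sum_const, card_univ,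
      Fintype.card_fin, smul_eq_mul, ← mul_sum, hsum] at this
    exact this
  have h4 : n * (2 * n) ≤ n * (m.choose (m / 2) + 4 * m) := by
    calc n * (2 * n) ≤ n * m.choose (m / 2) + 2 * D.card := htot
      _ ≤ n * m.choose (m / 2) + 2 * (2 * (m * n)) := by omega
      _ = n * (m.choose (m / 2) + 4 * m) := by ring
  exact Nat.le_of_mul_le_mul_left h4 hn

end Pool.Agent.Q130.SJ
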